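import Pool.Agent.H68.GHY.Targets
import Pool.Agent.H18.GZ.Targets3
import Pool.Agent.H1.GZ.Sh

/-!
Row VTH of the board ghy: the volume of the small elements of the shell.
-/

set_option autoImplicit false

namespace Pool.Agent.H5.GHY

open MeasureTheory Pool.Agent.H34.GM Pool.Agent.H34.GZ Pool.Agent.H34.GU Pool.Agent.H34.GA
open Pool.Agent.H68.GHY Pool.Agent.H17.GM

/-- the unit matrix as a vector -/
def oneV (m : ℕ) : V m := fun i j => (1 : Mat m) i j

theorem norm_oneV_le (m : ℕ) : ‖oneV m‖ ≤ 1 := by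
  refine (pi_norm_le_iff_of_nonneg zero_le_one).2 fun i => ?_
  refine (pi_norm_le_iff_of_nonneg zero_le_one).2 fun j => ?_
  unfold oneV
  rw [Matrix.one_apply]
  split_ifs <;> simp

theorem aN_smul' {m : ℕ} (h1m : 1 ≤ m) {c : ℝ} (hc : 0 < c) (z : V m) :
    aN (mt (c • z)) = c * aN (mt z) := by
  have h1 : mt (c • z) = c • mt z := rfl
  rw [h1]
  unfold aN
  rw [Matrix.det_smul, Fintype.card_fin, abs_mul, abs_pow, abs_of_pos hc,
    Real.mul_rpow (by positivity) (abs_nonneg _), ← Real.rpow_natCast, ← Real.rpow_mul hc.le]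
  have h2 : (m : ℝ) * (1 / (m : ℝ)) = 1 := by
    have h3 : (m : ℝ) ≠ 0 := by exact_mod_cast (by omega : m ≠ 0)
    field_simp
  rw [h2, Real.rpow_one]

/-- the normalised determinant of a product -/
theorem aN_prod {m : ℕ} (z α g : Mat m) :
    aN (z⁻¹ * α * g) = (aN z)⁻¹ * aN α * aN g := by
  unfold aN
  rw [Matrix.det_mul, Matrix.det_mul, Matrix.det_nonsing_inv, Ring.inverse_eq_inv', abs_mul,
    abs_mul, abs_inv, Real.mul_rpow (by positivity) (abs_nonneg _),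
    Real.mul_rpow (by positivity) (abs_nonneg _), Real.inv_rpow (abs_nonneg _)]

open Classical in
/-- the indicator of the matrices close to the scalars -/
noncomputable def nf (m : ℕ) (d : ℝ) (z : V m) : ENNReal :=
  if ‖(aN (mt z))⁻¹ • z - oneV m‖ ≤ d then 1 else 0

theorem nf_meas (hMSR : T_MSR) (m : ℕ) (d : ℝ) : Measurable (nf m d) := by
  obtain ⟨-, -, a3, -⟩ := hMSR.1 m
  unfold nf
  have h1 : Measurable (fun z : V m => (aN (mt z))⁻¹ • z - oneV m) :=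
    (a3.inv.smul measurable_id).sub measurable_const
  exact Measurable.ite (measurableSet_le h1.norm measurable_const) measurable_const
    measurable_const

theorem nf_smul {m : ℕ} (h1m : 1 ≤ m) (d : ℝ) {c : ℝ} (hc : 0 < c) (z : V m) :
    nf m d (c • z) = nf m d z := by
  unfold nf
  rw [aN_smul' h1m hc, smul_smul, mul_inv]
  have h1 : c⁻¹ * (aN (mt z))⁻¹ * c = (aN (mt z))⁻¹ := by
    field_simp
  rw [h1]

/-- the balls -/
theorem nf_cover {m : ℕ} {d : ℝ} (hd : 0 < d) (hd2 : d ≤ 1 / 2) {z : V m} (hz : z ∈ Shell m)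
    (h : ‖(aN (mt z))⁻¹ • z - oneV m‖ ≤ d) :
    ∃ k ∈ Finset.range (⌈2 / d⌉₊ + 1),
      z ∈ Metric.closedBall ((1 + (k : ℝ) * d) • oneV m) (4 * d) := by
  obtain ⟨hz1, hz2⟩ := hz
  obtain ⟨t, ht⟩ : ∃ t, t = aN (mt z) := ⟨_, rfl⟩
  rw [← ht] at hz1 hz2 h
  have ht0 : 0 < t := by linarith
  have ht3 : t ≤ 3 := by
    have := Real.exp_one_lt_d9
    linarith
  have h1 : ‖z - t • oneV m‖ ≤ 3 * d := by
    have h2 : z - t • oneV m = t • (t⁻¹ • z - oneV m) := by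
      rw [smul_sub, smul_smul, mul_inv_cancel₀ ht0.ne', one_smul]
    rw [h2, norm_smul, Real.norm_eq_abs, abs_of_pos ht0]
    exact mul_le_mul ht3 h (norm_nonneg _) (by norm_num)
  obtain ⟨k, hk⟩ : ∃ k : ℕ, k = ⌊(t - 1) / d⌋₊ := ⟨_, rfl⟩
  have hk0 : 0 ≤ (t - 1) / d := div_nonneg (by linarith) hd.le
  have hk1 : (k : ℝ) ≤ (t - 1) / d := by rw [hk]; exact Nat.floor_le hk0
  have hk2 : (t - 1) / d < (k : ℝ) + 1 := by rw [hk]; exact Nat.lt_floor_add_one _
  rw [le_div_iff₀ hd] at hk1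
  rw [div_lt_iff₀ hd] at hk2
  refine ⟨k, ?_, ?_⟩
  · rw [Finset.mem_range, Nat.lt_succ_iff]
    have h3 : (k : ℝ) ≤ 2 / d := by
      rw [le_div_iff₀ hd]
      linarith
    exact_mod_cast h3.trans (Nat.le_ceil _)
  · rw [mem_closedBall_iff_norm]
    have h3 : z - (1 + (k : ℝ) * d) • oneV m =
        (z - t • oneV m) + (t - (1 + (k : ℝ) * d)) • oneV m := by
      rw [sub_smul t]
      abel
    rw [h3]
    refine (norm_add_le _ _).trans ?_
    have h4 : ‖(t - (1 + (k : ℝ) * d)) • oneV m‖ ≤ d := by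
      rw [norm_smul, Real.norm_eq_abs]
      have h5 : |t - (1 + (k : ℝ) * d)| ≤ d := by
        rw [abs_le]
        constructor <;> linarith
      calc |t - (1 + (k : ℝ) * d)| * ‖oneV m‖ ≤ d * 1 :=
            mul_le_mul h5 (norm_oneV_le m) (norm_nonneg _) hd.le
        _ = d := mul_one d
    linarith

theorem nf_int (hMSR : T_MSR) {m : ℕ} (h1m : 1 ≤ m) :
    ∃ C : ℝ, 0 < C ∧ ∀ d : ℝ, 0 < d → d ≤ 1 / 2 →
      ∫⁻ z in Shell m, nf m d z ∂(hm m) ≤ ENNReal.ofReal (C * d ^ (m ^ 2 - 1)) := by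
  obtain ⟨B, hB⟩ : ∃ B : ℝ, B = (volume (Metric.ball (0 : V m) 1)).toReal := ⟨_, rfl⟩
  have hB1 : volume (Metric.ball (0 : V m) 1) = ENNReal.ofReal B := by
    rw [hB, ENNReal.ofReal_toReal]
    exact measure_ball_lt_top.ne
  have hB0 : 0 ≤ B := by rw [hB]; exact ENNReal.toReal_nonneg
  refine ⟨5 * 4 ^ (m ^ 2) * (B + 1), by positivity, fun d hd hd2 => ?_⟩
  obtain ⟨-, -, -, -, -, a6, -, -⟩ := hMSR.1 m
  obtain ⟨U, hU⟩ : ∃ U : Set (V m), U = ⋃ k ∈ Finset.range (⌈2 / d⌉₊ + 1),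
      Metric.closedBall ((1 + (k : ℝ) * d) • oneV m) (4 * d) := ⟨_, rfl⟩
  have hUm : MeasurableSet U := by
    rw [hU]
    exact Finset.measurableSet_biUnion _ fun k _ => Metric.isClosed_closedBall.measurableSet
  have h1 : ∫⁻ z in Shell m, nf m d z ∂(hm m) ≤ ∫⁻ z in Shell m, U.indicator 1 z ∂(hm m) := by
    refine setLIntegral_mono' a6 fun z hz => ?_
    unfold nf
    split_ifs with h
    · obtain ⟨k, hk1, hk2⟩ := nf_cover hd hd2 hz h
      have hzU : z ∈ U := by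
        rw [hU, Set.mem_iUnion₂]
        exact ⟨k, hk1, hk2⟩
      rw [Set.indicator_of_mem hzU]
      exact le_rfl
    · exact zero_le
  refine h1.trans ((Pool.Agent.H1.GZ.shell_le hMSR h1m _).trans ?_)
  rw [lintegral_indicator_one hUm, hU]
  refine (measure_biUnion_finset_le _ _).trans ?_
  have h2 : ∀ k ∈ Finset.range (⌈2 / d⌉₊ + 1),
      volume (Metric.closedBall ((1 + (k : ℝ) * d) • oneV m) (4 * d)) =
        ENNReal.ofReal ((4 * d) ^ (m ^ 2) * B) := by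
    intro k _
    rw [Measure.addHaar_closedBall volume _ (by positivity), Pool.Agent.H1.GZ.finrank_V, hB1,
      ← ENNReal.ofReal_mul (by positivity)]
  rw [Finset.sum_congr rfl h2, Finset.sum_const, Finset.card_range, nsmul_eq_mul,
    ← ENNReal.ofReal_natCast, ← ENNReal.ofReal_mul (Nat.cast_nonneg _)]
  refine ENNReal.ofReal_le_ofReal ?_
  have h3 : ((⌈2 / d⌉₊ + 1 : ℕ) : ℝ) ≤ 5 / d := by
    push_cast
    have h4 := Nat.ceil_lt_add_one (by positivity : 0 ≤ 2 / d)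
    have h5 : 2 ≤ 1 / d := by
      rw [le_div_iff₀ hd]
      linarith
    have h6 : 2 / d = 2 * (1 / d) := by ring
    have h7 : 5 / d = 5 * (1 / d) := by ring
    rw [h6] at h4 ⊢
    rw [h7]
    linarith
  have h8 : (0 : ℝ) ≤ (4 * d) ^ (m ^ 2) * B := by positivity
  refine (mul_le_mul_of_nonneg_right h3 h8).trans ?_
  obtain ⟨n, hn⟩ : ∃ n, m ^ 2 = n + 1 := ⟨m ^ 2 - 1, by
    have : 0 < m ^ 2 := by positivity
    omega⟩
  rw [hn, Nat.add_sub_cancel]
  have h9 : 5 / d * ((4 * d) ^ (n + 1) * B) = 5 * 4 ^ (n + 1) * B * d ^ n := by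
    rw [mul_pow, pow_succ d n]
    field_simp
  rw [h9]
  have h10 : (0 : ℝ) ≤ d ^ n := by positivity
  refine mul_le_mul_of_nonneg_right ?_ h10
  exact mul_le_mul_of_nonneg_left (by linarith) (by positivity)

/-- VTH -/
theorem pf_VTH (hMSR : T_MSR) (hSHI : T_SHI) : T_VTH := by
  classical
  intro m h1m
  obtain ⟨C, hC, h⟩ := nf_int hMSR h1m
  refine ⟨C, hC, fun d hd hd2 α g hα hg => ?_⟩
  have h1 := (hSHI m h1m (nf m d) (nf_meas hMSR m d) (fun c hc z => nf_smul h1m d hc z) 1 (α * g)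
    (by simp) (by rw [Matrix.det_mul]; exact mul_ne_zero hα hg)).2
  refine le_trans (le_of_eq ?_) (h d hd hd2)
  rw [← h1]
  obtain ⟨-, -, -, -, -, a6, -, -⟩ := hMSR.1 m
  refine setLIntegral_congr_fun a6 fun z hz => ?_
  have hz0 : 0 < aN (mt z) := by
    have := hz.1
    linarith
  have hk : kk (aN α) (mt z) α g - 1 =
      (aN ((mt z)⁻¹ * α * g))⁻¹ • ((mt z)⁻¹ * α * g) - 1 := by
    unfold kk
    rw [aN_prod]
    congr 2
    have hα0 := gb_aN_pos hα
    have hg0 := gb_aN_pos hg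
    field_simp
  have h2 : sz (kk (aN α) (mt z) α g - 1) =
      ‖(aN ((mt z)⁻¹ * α * g))⁻¹ • (fun i j => ((mt z)⁻¹ * α * g) i j : V m) - oneV m‖ := by
    rw [hk]
    rfl
  have h3 : (fun i j => (1 * (mt z)⁻¹ * (α * g)) i j : V m) =
      (fun i j => ((mt z)⁻¹ * α * g) i j : V m) := by
    rw [Matrix.one_mul, Matrix.mul_assoc]
  simp only [h2]
  unfold nf
  rw [h3]
  rfl

end Pool.Agent.H5.GHY
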